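import Mathlib
import Pool.Agent.H9.Onl

set_option autoImplicit false

namespace Pool.Agent.Results.MP_ada285_co.Bounded

/-- An on-line algorithm: it sees the graph induced on the vertices revealed so far, labelled by
their arrival times `0, …, n`, and returns the colour of the vertex that arrived at time `n`. -/
def Alg : Type := (n : ℕ) → SimpleGraph (Fin (n + 1)) → ℕ

/-- The colour `A` gives to the vertex `π i` of `G` revealed at time `i` under the order `π`. -/
def colour (A : Alg) {N : ℕ} (G : SimpleGraph (Fin N)) (π : Equiv.Perm (Fin N)) (i : Fin N) : ℕ :=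
  A i (G.comap fun j : Fin (i + 1) => π (Fin.castLE i.isLt j))

/-- `A` colours `G` properly under every order. -/
def Valid (A : Alg) {N : ℕ} (G : SimpleGraph (Fin N)) : Prop :=
  ∀ (π : Equiv.Perm (Fin N)) (i j : Fin N), G.Adj (π i) (π j) → colour A G π i ≠ colour A G π j

/-- Largest number of colours `A` uses on `G` over all orders. -/
def chiA (A : Alg) {N : ℕ} (G : SimpleGraph (Fin N)) : ℕ :=
  Finset.univ.sup fun π : Equiv.Perm (Fin N) => (Finset.univ.image (colour A G π)).card

/-- The on-line chromatic number. -/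
noncomputable def chiOL {N : ℕ} (G : SimpleGraph (Fin N)) : ℕ :=
  sInf {q | ∃ A : Alg, Valid A G ∧ chiA A G = q}

theorem result : ∃ A : Alg, ∀ (N : ℕ) (G : SimpleGraph (Fin N)), G.CliqueFree 3 →
    IsEmpty (SimpleGraph.pathGraph 6 ↪g G) → Valid A G ∧ chiA A G ≤ 32 * (chiOL G + 1) := by
  refine ⟨fun n H => Pool.Agent.H9.Onl.col (Pool.Agent.H9.Onl.ext H) n, fun N G h h6 => ?_⟩
  have v := Pool.Agent.H9.Onl.proper h h6
  obtain ⟨B, hB, e⟩ : chiOL G ∈ {q | ∃ A : Alg, Valid A G ∧ chiA A G = q} :=
    Nat.sInf_mem ⟨_, fun n H => Pool.Agent.H9.Onl.col (Pool.Agent.H9.Onl.ext H) n, v, rfl⟩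
  refine ⟨v, Finset.sup_le fun π _ => le_trans (Finset.card_le_card fun x hx => ?_)
    (Finset.card_range _).le⟩
  obtain ⟨i, -, rfl⟩ := Finset.mem_image.1 hx
  exact Finset.mem_range.2 (Pool.Agent.H9.Onl.bound B hB _ (fun σ => e ▸ Finset.le_sup
    (f := fun π : Equiv.Perm (Fin N) => (Finset.univ.image (colour B G π)).card)
    (Finset.mem_univ σ)) π i)

end Pool.Agent.Results.MP_ada285_co.Bounded
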